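import Pool.Agent.H59.LIN.Targets

set_option autoImplicit false

open Finset

namespace Pool.Agent.H91.LIN

open Pool.Agent.H59.LIN

theorem exists_cd {d : ℕ} (u : List (Fin d × Bool)) (h1 : u.Nodup) (h2 : u.length = 2 * d) :
    ∃ D : CD d, List.ofFn D = u := by
  let f : Fin (2 * d) → Fin d × Bool := fun i => u.get (i.cast h2.symm)
  have hf : Function.Injective f := by
    intro i j hij
    have h3 := List.nodup_iff_injective_get.mp h1 hij
    exact Fin.cast_injective _ h3
  have hb : Function.Bijective f := by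
    rw [Fintype.bijective_iff_injective_and_card]
    refine ⟨hf, ?_⟩
    simp [mul_comm]
  refine ⟨Equiv.ofBijective f hb, ?_⟩
  show List.ofFn f = u
  apply List.ext_get
  · rw [List.length_ofFn, h2]
  · intro n h3 h4
    rw [List.get_ofFn]
    rfl

theorem ald_aux {d : ℕ} (P : List (Pl (Fin d × Bool))) : ∀ u : List (Fin d × Bool),
    (u ++ flt P).Nodup → (u ++ flt P).length = 2 * d → ∃ x : CD d → ℤ,
    ∀ (M : Type) [AddCommGroup M] (g : List (Fin d × Bool) → M),
      ∑ D, x D • g (List.ofFn D) = alt g u P := by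
  classical
  induction P with
  | nil =>
    intro u h1 h2
    have h3 : flt ([] : List (Pl (Fin d × Bool))) = [] := rfl
    rw [h3, List.append_nil] at h1 h2
    obtain ⟨D, hD⟩ := exists_cd u h1 h2
    refine ⟨fun D' => if D' = D then 1 else 0, fun M _ g => ?_⟩
    rw [Finset.sum_eq_single D]
    · show (if D = D then (1 : ℤ) else 0) • g (List.ofFn D) = alt g u []
      rw [if_pos rfl, one_smul, hD]
      rfl
    · intro D' _ h
      show (if D' = D then (1 : ℤ) else 0) • g (List.ofFn D') = 0
      rw [if_neg h, zero_smul]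
    · intro h
      exact absurd (Finset.mem_univ _) h
  | cons p P ih =>
    intro u h1 h2
    cases p with
    | si a =>
      have h3 : u ++ flt (Pl.si a :: P) = (u ++ [a]) ++ flt P := by
        rw [List.append_assoc]
        rfl
      rw [h3] at h1 h2
      obtain ⟨x, hx⟩ := ih (u ++ [a]) h1 h2
      exact ⟨x, fun M _ g => hx M g⟩
    | pr a b =>
      have h3 : u ++ flt (Pl.pr a b :: P) = (u ++ [a, b]) ++ flt P := by
        rw [List.append_assoc]
        rfl
      rw [h3] at h1 h2
      have h4 : ((u ++ [a, b]) ++ flt P).Perm ((u ++ [b, a]) ++ flt P) :=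
        (List.Perm.append_left u (List.Perm.swap b a [])).append_right (flt P)
      obtain ⟨x, hx⟩ := ih (u ++ [a, b]) h1 h2
      obtain ⟨y, hy⟩ := ih (u ++ [b, a]) (h4.nodup_iff.mp h1) (h4.length_eq ▸ h2)
      refine ⟨fun D => x D - y D, fun M _ g => ?_⟩
      have h5 : alt g u (Pl.pr a b :: P) = alt g (u ++ [a, b]) P - alt g (u ++ [b, a]) P := rfl
      rw [h5, ← hx M g, ← hy M g, ← Finset.sum_sub_distrib]
      exact Finset.sum_congr rfl fun D _ => sub_smul _ _ _

theorem pf_ALD : Pool.Agent.H59.LIN.T_ALD := by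
  intro d P h1 h2
  obtain ⟨x, hx⟩ := ald_aux P [] h1 h2
  exact ⟨x, hx⟩

end Pool.Agent.H91.LIN
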