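import Pool.Agent.H59.LIN.Targets

set_option autoImplicit false

open Finset

namespace Pool.Agent.H91.LIN

theorem pf_TRI : Pool.Agent.H59.LIN.T_TRI := by
  classical
  intro ι _ _ ρ M h1 h2
  have key : ∀ n : ℕ, ∀ j, ρ j = n → ∃ y : ι → ℤ, ∀ i, ∑ k, M i k * y k =
      if i = j then 1 else 0 := by
    intro n
    induction n using Nat.strong_induction_on with
    | _ n ih =>
      intro j hj
      have h3 : ∀ i, ρ i < n → ∃ y : ι → ℤ, ∀ i', ∑ k, M i' k * y k =
          if i' = i then 1 else 0 := fun i hi => ih (ρ i) hi i rfl
      choose! Y hY using h3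
      refine ⟨fun k => M j j * ((if k = j then 1 else 0) -
        ∑ i ∈ univ.erase j, M i j * Y i k), fun i0 => ?_⟩
      have h4 : ∀ k, M i0 k * (M j j * ((if k = j then 1 else 0) -
          ∑ i ∈ univ.erase j, M i j * Y i k)) =
          M j j * (M i0 k * (if k = j then 1 else 0)) -
            M j j * ∑ i ∈ univ.erase j, M i j * (M i0 k * Y i k) := by
        intro k
        have h5 : ∑ i ∈ univ.erase j, M i j * (M i0 k * Y i k) =
            M i0 k * ∑ i ∈ univ.erase j, M i j * Y i k := by
          rw [Finset.mul_sum]
          exact Finset.sum_congr rfl fun i _ => by ring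
        rw [h5]
        ring
      rw [Finset.sum_congr rfl fun k _ => h4 k, Finset.sum_sub_distrib, ← Finset.mul_sum,
        ← Finset.mul_sum, Finset.sum_comm]
      have h6 : ∀ i ∈ univ.erase j, ∑ k, M i j * (M i0 k * Y i k) =
          M i j * (if i0 = i then 1 else 0) := by
        intro i hi
        rw [← Finset.mul_sum]
        by_cases h7 : M i j = 0
        · rw [h7, zero_mul, zero_mul]
        · rw [hY i (hj ▸ h2 i j (Finset.ne_of_mem_erase hi) h7) i0]
      rw [Finset.sum_congr rfl h6]
      have h8 : ∑ k, M i0 k * (if k = j then 1 else 0) = M i0 j := by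
        simp
      have h9 : ∑ i ∈ univ.erase j, M i j * (if i0 = i then 1 else 0) =
          if i0 = j then 0 else M i0 j := by
        by_cases h10 : i0 = j
        · rw [if_pos h10]
          refine Finset.sum_eq_zero fun i hi => ?_
          rw [if_neg, mul_zero]
          intro h11
          exact Finset.ne_of_mem_erase hi (h11 ▸ h10)
        · rw [if_neg h10, Finset.sum_eq_single i0]
          · rw [if_pos rfl, mul_one]
          · intro i _ hi
            rw [if_neg fun h => hi h.symm, mul_zero]
          · intro h
            exact absurd (Finset.mem_erase.mpr ⟨h10, Finset.mem_univ _⟩) h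
      rw [h8, h9]
      by_cases h10 : i0 = j
      · rw [if_pos h10, if_pos h10, h10, mul_zero, sub_zero]
        rcases h1 j with h | h <;> rw [h] <;> norm_num
      · rw [if_neg h10, if_neg h10, sub_self]
  intro j
  exact key (ρ j) j rfl

end Pool.Agent.H91.LIN
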